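import Pool.Agent.Helper57.KE.St

set_option autoImplicit false

open scoped BigOperators
open Finset

namespace Pool.Agent.Helper56.KE

open Pool.Agent.Helper57.KE Pool.Agent.Helper57.KR Pool.Agent.Helper65.RG

private lemma aux_sum_eq {δ : ℝ} (hδ : 0 < δ) (K : ℕ) :
    ∑ k ∈ range K, (k : ℝ) * ((1 + δ)⁻¹) ^ (k + 1)
      + ((1 + δ)⁻¹) ^ K * ((K : ℝ) * δ⁻¹ + (δ⁻¹) ^ 2) = (δ⁻¹) ^ 2 := by
  induction K with
  | zero => simp
  | succ n ih =>
    rw [sum_range_succ]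
    have h1 : (1 + δ) ≠ 0 := by positivity
    have h2 : (1 + δ)⁻¹ * ((n : ℝ) + ((((n + 1 : ℕ) : ℝ)) * δ⁻¹ + (δ⁻¹) ^ 2))
        = (n : ℝ) * δ⁻¹ + (δ⁻¹) ^ 2 := by
      push_cast
      field_simp
      ring
    linear_combination ih + ((1 + δ)⁻¹) ^ n * h2

private lemma aux_sum_le {δ : ℝ} (hδ : 0 < δ) (K : ℕ) :
    ∑ k ∈ range K, (k : ℝ) * ((1 + δ)⁻¹) ^ (k + 1) ≤ (δ⁻¹) ^ 2 := by
  have h := aux_sum_eq hδ K
  have h0 : 0 ≤ ((1 + δ)⁻¹) ^ K * ((K : ℝ) * δ⁻¹ + (δ⁻¹) ^ 2) := by positivity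
  linarith

private noncomputable def kd (δ : ℝ) (i j : ℕ) : ℝ :=
  if j ≤ i then (((i - j : ℕ) : ℝ)) * ((1 + δ)⁻¹) ^ (i - j + 1) else 0

private lemma kd_nonneg {δ : ℝ} (hδ : 0 < δ) (i j : ℕ) : 0 ≤ kd δ i j := by
  unfold kd
  split_ifs
  · positivity
  · exact le_rfl

private lemma kbd {δ : ℝ} (hδ : 0 < δ) (N : ℕ) :
    KB (fun i j : Fin (N + 1) => kd δ i j) ((δ⁻¹) ^ 2) := by
  have hd : 0 ≤ (δ⁻¹) ^ 2 := by positivity
  have := KB.schur (ι := Fin (N + 1)) (K := fun i j => kd δ i j) (h := fun _ => 1)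
    (A := (δ⁻¹) ^ 2) (B := (δ⁻¹) ^ 2) (fun _ => one_pos) (fun i j => kd_nonneg hδ _ _) hd hd ?_ ?_
  · rwa [Real.mul_self_sqrt hd] at this
  · intro i
    simp only [mul_one]
    rw [Fin.sum_univ_eq_sum_range (fun j => kd δ i j) (N + 1)]
    unfold kd
    exact sum_row (g := fun k => (k : ℝ) * ((1 + δ)⁻¹) ^ (k + 1)) (aux_sum_le hδ) (by omega)
  · intro j
    simp only [mul_one]
    rw [Fin.sum_univ_eq_sum_range (fun i => kd δ i j) (N + 1)]
    unfold kd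
    exact sum_col (g := fun k => (k : ℝ) * ((1 + δ)⁻¹) ^ (k + 1)) (aux_sum_le hδ) (by omega)

theorem hCRU : StCRU := by
  intro φ δ i0 N hφ hi0 hδ _ hr
  have hi0' : (0 : ℝ) < i0 := by exact_mod_cast hi0
  have hb := (kb1 hδ N).add ((kbd hδ N).smul (c := 1 / (i0 : ℝ)) (by positivity))
  refine hb.mono ?_ ?_
  · intro i j
    show k1 δ i j * ((φ i / φ (N - i)) / (φ j / φ (N - j)))
      ≤ k1 δ i j + 1 / (i0 : ℝ) * kd δ i j
    have hi : (i : ℕ) ≤ N := by omega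
    have hj : (j : ℕ) ≤ N := by omega
    by_cases hji : (j : ℕ) ≤ (i : ℕ)
    · have hkd : kd δ i j = ((((i : ℕ) - (j : ℕ) : ℕ) : ℝ)) * k1 δ i j := by
        unfold kd k1
        rw [if_pos hji, if_pos hji]
      have hk := k1_nonneg hδ (i : ℕ) j
      have h1 := hr i j hji
      have h2 := hr (N - j) (N - i) (by omega)
      have e : N - (j : ℕ) - (N - (i : ℕ)) = (i : ℕ) - (j : ℕ) := by omega
      rw [e] at h2
      have p1 := hφ i
      have p2 := hφ j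
      have p3 := hφ (N - i)
      have p4 := hφ (N - j)
      have e2 : (φ i / φ (N - i)) / (φ j / φ (N - j)) = (φ i / φ j) * (φ (N - j) / φ (N - i)) := by
        field_simp
      have h3 : (φ i / φ j) * (φ (N - j) / φ (N - i))
          ≤ 1 + ((((i : ℕ) - (j : ℕ) : ℕ) : ℝ)) / i0 := by
        nlinarith [sq_nonneg (φ i / φ j - φ (N - j) / φ (N - i))]
      rw [e2, hkd]
      calc k1 δ i j * ((φ i / φ j) * (φ (N - j) / φ (N - i)))
          ≤ k1 δ i j * (1 + ((((i : ℕ) - (j : ℕ) : ℕ) : ℝ)) / i0) :=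
            mul_le_mul_of_nonneg_left h3 hk
        _ = _ := by ring
    · have hk0 : k1 δ (i : ℕ) j = 0 := by
        unfold k1
        rw [if_neg hji]
      have hk1 : kd δ (i : ℕ) j = 0 := by
        unfold kd
        rw [if_neg hji]
      rw [hk0, hk1]
      simp
  · apply le_of_eq
    field_simp

end Pool.Agent.Helper56.KE
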